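import Pool.Agent.KS6_22.CU.Fam
import Pool.Agent.KS6_22.CU.Force

/-!
# No family of continuum many spaces is `C_p`-universal

In ZFC: for every family of at most `𝔠` many `σ`-compact spaces of weight less than `𝔠` there is one
compact space `X` (separable, zero-dimensional, of weight at most `cf(𝔠)`) such that `C_p(X)` embeds
in none of their function spaces. So if `cf(𝔠) ≤ κ < 𝔠`, a family of compact spaces of weight `κ`
that is jointly `C_p`-universal for weight `κ` has more than `𝔠` members; and for every uncountable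
`κ` this hypothesis can be forced by a ccc forcing notion.
-/

set_option autoImplicit false

namespace Pool.Agent.Results.MP_32ee98_gt.NoUniversalFamily

open Set Topology TopologicalSpace Cardinal Pool.Agent.KS6_22.CU Pool.Agent.KS6_22.CU.F.Forcing

/-- The map `e` is linear. -/
def IsLin {X W : Type} [TopologicalSpace X] [TopologicalSpace W] (e : Cp X → Cp W) : Prop :=
  ∀ (f g h : Cp X) (a b : ℝ), (∀ x, h.1 x = a * f.1 x + b * g.1 x) →
    ∀ w, (e h).1 w = a * (e f).1 w + b * (e g).1 w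

/-- `W` is a compact Hausdorff space of weight `κ` and `C_p(X)` embeds in `C_p(W)` for every
compact Hausdorff space `X` of weight at most `κ`. -/
def CpUniversal (κ : Cardinal.{0}) (W : Type) [TopologicalSpace W] : Prop :=
  CompactSpace W ∧ T2Space W ∧ weight W = κ ∧
    ∀ (X : Type) [TopologicalSpace X] [CompactSpace X] [T2Space X], weight X ≤ κ →
      ∃ e : Cp X → Cp W, IsEmbedding e

/-- `W` is a compact Hausdorff space of weight `κ` and `C_p(X)` embeds linearly in `C_p(W)` for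
every compact Hausdorff space `X` of weight at most `κ`. -/
def LinCpUniversal (κ : Cardinal.{0}) (W : Type) [TopologicalSpace W] : Prop :=
  CompactSpace W ∧ T2Space W ∧ weight W = κ ∧
    ∀ (X : Type) [TopologicalSpace X] [CompactSpace X] [T2Space X], weight X ≤ κ →
      ∃ e : Cp X → Cp W, IsEmbedding e ∧ IsLin e

/-- There is no `C_p`-universal and no linearly `C_p`-universal compact space for weight `κ`. -/
def NoUniversalSpace (κ : Cardinal.{0}) : Prop :=
  (¬ ∃ (W : Type) (_ : TopologicalSpace W), CpUniversal κ W) ∧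
    ¬ ∃ (W : Type) (_ : TopologicalSpace W), LinCpUniversal κ W

/-- There is a compact Hausdorff space `X`, separable, totally disconnected and of weight at most
`κ`, such that `C_p(X)` does not embed in any of the spaces `C_p(W j)`. -/
def Escapes (κ : Cardinal.{0}) {J : Type} (W : J → Type) [∀ j, TopologicalSpace (W j)] : Prop :=
  ∃ (X : Type) (_ : TopologicalSpace X), CompactSpace X ∧ T2Space X ∧ SeparableSpace X ∧
    TotallyDisconnectedSpace X ∧ weight X ≤ κ ∧ ∀ j, ¬ ∃ e : Cp X → Cp (W j), IsEmbedding e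

/-- For every family of at most `𝔠` many `σ`-compact spaces of weight at most `κ` there is a compact
space `X` of weight at most `κ` such that `C_p(X)` embeds in none of their function spaces. -/
def NoUniversalFamilyFor (κ : Cardinal.{0}) : Prop :=
  ∀ (J : Type) (W : J → Type) [∀ j, TopologicalSpace (W j)], (∀ j, SigmaCompactSpace (W j)) →
    #J ≤ 𝔠 → (∀ j, weight (W j) ≤ κ) → Escapes κ W

theorem separable_cut {L : Set ℝ} (hQ : ∀ q : ℚ, (q : ℝ) ∈ L) : SeparableSpace (Cut L) := by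
  classical
  refine ⟨⟨range fun q : ℚ => pt (⟨q, hQ q⟩ : L), countable_range _, ?_⟩⟩
  rw [cut_basis.dense_iff]
  rintro _ ⟨A, rfl⟩ ⟨z, hz⟩
  obtain ⟨m1, h1, h2⟩ := Order.exists_between_finsets
    ((A.filter fun p => p.2 = false).image fun p => (p.1 : ℝ))
    ((A.filter fun p => p.2 = true).image fun p => (p.1 : ℝ)) (by
      intro x hx y hy
      obtain ⟨p, hp, rfl⟩ := Finset.mem_image.1 hx
      obtain ⟨p', hp', rfl⟩ := Finset.mem_image.1 hy
      rw [Finset.mem_filter] at hp hp'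
      have e1 := hz p hp.1
      have e2 := hz p' hp'.1
      rw [hp.2] at e1
      rw [hp'.2] at e2
      by_contra hcon
      rw [not_lt] at hcon
      have h3 : z.1 p'.1 ≤ z.1 p.1 := z.2 (Subtype.coe_le_coe.1 hcon)
      rw [e1, e2] at h3
      exact absurd h3 (by decide))
  obtain ⟨m2, h3, h4⟩ := Order.exists_between_finsets
    (insert m1 ((A.filter fun p => p.2 = false).image fun p => (p.1 : ℝ)))
    ((A.filter fun p => p.2 = true).image fun p => (p.1 : ℝ)) (by
      intro x hx y hy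
      rcases Finset.mem_insert.1 hx with rfl | hx
      · exact h2 y hy
      · exact (h1 x hx).trans (h2 y hy))
  obtain ⟨q, hq1, hq2⟩ := exists_rat_btwn (h3 m1 (Finset.mem_insert_self _ _))
  refine ⟨pt ⟨q, hQ q⟩, ?_, ⟨q, rfl⟩⟩
  intro p hp
  rw [pt_apply]
  rcases Bool.eq_false_or_eq_true p.2 with hb | hb
  · rw [hb, decide_eq_true_iff]
    have h5 := h4 p.1 (Finset.mem_image.2 ⟨p, Finset.mem_filter.2 ⟨hp, hb⟩, rfl⟩)
    exact Subtype.coe_le_coe.1 (hq2.trans h5).le
  · rw [hb, decide_eq_false_iff_not, not_le]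
    have h5 := h1 p.1 (Finset.mem_image.2 ⟨p, Finset.mem_filter.2 ⟨hp, hb⟩, rfl⟩)
    exact Subtype.coe_lt_coe.1 (h5.trans hq1)

theorem escapes_of_not_captured {κ : Cardinal.{0}} {J : Type} {W : J → Type}
    [∀ j, TopologicalSpace (W j)] (hW : ∀ j, SigmaCompactSpace (W j)) (hJ : #J ≤ 𝔠)
    (hw : ∀ j, weight (W j) ≤ 𝔠)
    (h : ∀ A : Set (Set ℝ), #A ≤ 𝔠 → (∀ a ∈ A, ∃ j, #a ≤ max (weight (W j)) ℵ₀) →
      ∃ L : Set ℝ, (∀ q : ℚ, (q : ℝ) ∈ L) ∧ #L ≤ κ ∧ ∀ a ∈ A, ¬ L ⊆ a) : Escapes κ W := by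
  classical
  choose A hA1 hA2 hA3 using fun j => exists_capturing (W := W j) (hw j)
  obtain ⟨L, hL1, hL2, hL3⟩ := h (⋃ j, A j) (by
    refine (mk_iUnion_le _).trans ((mul_le_mul' hJ (ciSup_le' hA1)).trans ?_)
    rw [continuum_mul_self]) (by
    intro a ha
    obtain ⟨j, hj⟩ := mem_iUnion.1 ha
    exact ⟨j, hA2 j a hj⟩)
  have hinf : L.Infinite := (Set.infinite_range_of_injective (Rat.cast_injective (α := ℝ))).mono (by
    rintro _ ⟨q, rfl⟩
    exact hL1 q)
  refine ⟨Cut L, inferInstance, inferInstance, inferInstance, separable_cut hL1,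
    inferInstanceAs (TotallyDisconnectedSpace {z : L → Bool // Monotone z}),
    (weight_cut hinf).trans hL2, ?_⟩
  rintro j ⟨T, hT⟩
  obtain ⟨a, ha, hLa⟩ := hA3 j L hL1 ⟨T, hT⟩
  exact hL3 a (mem_iUnion.2 ⟨j, ha⟩) hLa

theorem family_of_phi {K Λ I : Type} {c : Λ → I} (hK : Infinite K) (hI : #I ≤ #K)
    (h : Phi K Λ I c) : NoUniversalFamilyFor #K := by
  intro J W _ hW hJ hw
  have hinf : ℵ₀ ≤ #K := aleph0_le_mk K
  have hKc : #K ≤ 𝔠 := by
    by_contra hcon
    rw [not_le] at hcon
    obtain ⟨hΛ, hi⟩ := h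
    obtain ⟨E, hE⟩ := hΛ
    obtain ⟨l, _⟩ := hE fun _ => 0
    apply hi (c l)
    obtain ⟨E', hE'⟩ := contLe_iff.2 hcon.le
    refine ⟨fun p => E' p.1, fun x => ?_⟩
    obtain ⟨k, hk⟩ := hE' x
    exact ⟨(k, ⟨l, rfl⟩), hk⟩
  refine escapes_of_not_captured hW hJ (fun j => (hw j).trans hKc) fun A hA1 hA2 => ?_
  obtain ⟨L, hL1, hL2, hL3⟩ := exists_not_captured_phi h hK A hA1 (fun a ha => by
    obtain ⟨j, hj⟩ := hA2 a ha
    exact hj.trans (max_le (hw j) hinf))
  exact ⟨L, hL1, hL2.trans (max_le hI hinf), hL3⟩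

theorem family_zfc {J : Type} (W : J → Type) [∀ j, TopologicalSpace (W j)]
    (hW : ∀ j, SigmaCompactSpace (W j)) (hJ : #J ≤ 𝔠) (hw : ∀ j, weight (W j) < 𝔠) :
    Escapes (𝔠 : Cardinal.{0}).ord.cof W :=
  escapes_of_not_captured hW hJ (fun j => (hw j).le) fun A hA1 hA2 =>
    exists_not_captured A hA1 fun a ha => by
      obtain ⟨j, hj⟩ := hA2 a ha
      exact hj.trans_lt (max_lt (hw j) aleph0_lt_continuum)

theorem space_of_family {κ : Cardinal.{0}} (h : NoUniversalFamilyFor κ) : NoUniversalSpace κ := by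
  have h1 : ¬ ∃ (W : Type) (_ : TopologicalSpace W), CpUniversal κ W := by
    rintro ⟨W, _, hc, _, hw, hW⟩
    obtain ⟨X, hX, hX1, hX2, -, -, hX4, hX5⟩ := h Unit (fun _ => W)
      (fun _ => inferInstance) (by simpa using one_le_aleph0.trans aleph0_le_continuum)
      (fun _ => hw.le)
    exact hX5 () (hW X hX4)
  refine ⟨h1, ?_⟩
  rintro ⟨W, hW0, hc, h2, hw, hW⟩
  refine h1 ⟨W, hW0, hc, h2, hw, fun X _ _ _ hX => ?_⟩
  obtain ⟨e, he, _⟩ := hW X hX
  exact ⟨e, he⟩

/-- **Main theorem.** (1) For every uncountable cardinal `κ` there is a ccc forcing notion `P` such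
that every condition forces that all cardinals of the ground model are cardinals, that the continuum
is the cardinal `#Λ`, where `#Λ` is larger than `κ` and has cofinality `ℵ₁`, and that the sentence
`Phi κ Λ I c` holds, where `#I = ℵ₁` (`PhiHolds` is the translation of `Phi` into the forcing
language). (2) In ZFC: `Phi K Λ I c`, where `K` is infinite and `#I ≤ #K`, implies that no family of
at most `𝔠` many `σ`-compact spaces of weight at most `#K` is jointly universal. (3) In ZFC: for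
every family of at most `𝔠` many `σ`-compact spaces of weight less than `𝔠` there is a separable
compact zero-dimensional space `X` of weight at most `cf(𝔠)` such that `C_p(X)` embeds in none of
their function spaces. (4) So if `cf(𝔠) ≤ κ < 𝔠`, then a family of spaces as in (2) is not jointly
universal for weight `κ`. (5) If so, then there is no `C_p`-universal (and no linearly
`C_p`-universal) compact space for weight `κ`. -/
theorem result :
    (∀ κ : Cardinal.{0}, ℵ₀ < κ →
      ∃ (Λ I P : Type) (c : Λ → I) (_ : Preorder P), κ < #Λ ∧ (#Λ).ord.cof = ℵ₁ ∧ #I = ℵ₁ ∧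
        Nonempty P ∧
        (∀ A : Set P, (∀ p ∈ A, ∀ q ∈ A, p ≠ q → ¬ ∃ r, r ≤ p ∧ r ≤ q) → A.Countable) ∧
        ∀ p : P, p ∈ CardinalsPreserved.{0, 0} P ∧ p ∈ ContinuumIs P #Λ ∧
          p ∈ PhiHolds P κ.out Λ I c) ∧
    (∀ (K Λ I : Type) (c : Λ → I), Infinite K → #I ≤ #K → Phi K Λ I c →
      NoUniversalFamilyFor #K) ∧
    (∀ (J : Type) (W : J → Type) [∀ j, TopologicalSpace (W j)], (∀ j, SigmaCompactSpace (W j)) →
      #J ≤ 𝔠 → (∀ j, weight (W j) < 𝔠) → Escapes (𝔠 : Cardinal.{0}).ord.cof W) ∧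
    (∀ κ : Cardinal.{0}, (𝔠 : Cardinal.{0}).ord.cof ≤ κ → κ < 𝔠 → NoUniversalFamilyFor κ) ∧
    ∀ κ : Cardinal.{0}, NoUniversalFamilyFor κ → NoUniversalSpace κ := by
  refine ⟨fun κ _ => exists_forcing κ, fun K Λ I c hK hI h => family_of_phi hK hI h,
    fun J W _ hW hJ hw => family_zfc W hW hJ hw, fun κ h1 h2 J W _ hW hJ hw => ?_,
    fun κ h => space_of_family h⟩
  obtain ⟨X, hX, e1, e2, e3, e4, e5, e6⟩ := family_zfc W hW hJ fun j => (hw j).trans_lt h2
  exact ⟨X, hX, e1, e2, e3, e4, e5.trans h1, e6⟩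

end Pool.Agent.Results.MP_32ee98_gt.NoUniversalFamily
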